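import Pool.Agent.Q51.SZ.Stm2

/-! # Project SZ, job NOR: conjugates of the Kummer classes -/

set_option autoImplicit false
set_option linter.all false

namespace Pool.Agent.Q277.SZ

open Polynomial NumberField Finset
open Pool.Agent.Y157.PS (Dec Ine IsU)
open Pool.Agent.Q51.SZ

section W

variable {f : ℤ[X]} {A : Type} [Field A] [Algebra ℚ A]

theorem Wf_eqv (D : ℤ) (σ : A ≃ₐ[ℚ] A) (r i : Rt f A) :
    σ (Wf f D r i) = Wf f D (σ • r) (σ • i) := by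
  classical
  unfold Wf
  by_cases h : i = r
  · subst h
    rw [if_pos rfl, if_pos rfl, map_div₀, map_mul, map_intCast, map_intCast, map_prod]
    congr 2
    refine Finset.prod_bij (fun k _ => σ • k) ?_ ?_ ?_ ?_
    · intro k hk
      rw [mem_erase] at hk ⊢
      exact ⟨fun e => hk.1 (MulAction.injective σ e), mem_univ _⟩
    · intro k _ k' _ e
      exact MulAction.injective σ e
    · intro k hk
      refine ⟨σ⁻¹ • k, ?_, smul_inv_smul σ k⟩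
      rw [mem_erase] at hk ⊢
      refine ⟨fun e => hk.1 ?_, mem_univ _⟩
      rw [← e, smul_inv_smul]
    · intro k _
      rw [map_sub, smul_val, smul_val]
  · rw [if_neg h, if_neg (fun e => h (MulAction.injective σ e)), map_sub, smul_val, smul_val]

theorem Cf_eqv (D : ℤ) (σ : A ≃ₐ[ℚ] A) (r i j : Rt f A) :
    σ (Cf f D r i j) = Cf f D (σ • r) (σ • i) (σ • j) := by
  unfold Cf
  rw [map_div₀, Wf_eqv, Wf_eqv]

end W

section cosets

variable {f : ℤ[X]} {A : Type} [Field A] [Algebra ℚ A] {H : Subgroup (A ≃ₐ[ℚ] A)}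
  (a : Rt f A → Rt f A → A)

/-- the conjugates of the classes `a i j` -/
noncomputable def av (c : (A ≃ₐ[ℚ] A) ⧸ H) (i j : Rt f A) : A :=
  c.out (a (c.out⁻¹ • i) (c.out⁻¹ • j))

variable {a}

theorem av_mk (h : ∀ σ ∈ H, ∀ i j : Rt f A, σ (a i j) = a (σ • i) (σ • j)) (g : A ≃ₐ[ℚ] A)
    (i j : Rt f A) : av a (g : (A ≃ₐ[ℚ] A) ⧸ H) i j = g (a (g⁻¹ • i) (g⁻¹ • j)) := by
  unfold av
  generalize hg' : Quotient.out (g : (A ≃ₐ[ℚ] A) ⧸ H) = g'
  have h1 : g'⁻¹ * g ∈ H := by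
    rw [← QuotientGroup.eq, ← hg', QuotientGroup.out_eq']
  have h2 := h _ h1 (g⁻¹ • i) (g⁻¹ • j)
  rw [smul_smul, smul_smul, mul_assoc, mul_inv_cancel, mul_one] at h2
  rw [← h2, ← AlgEquiv.mul_apply, mul_inv_cancel_left]

theorem av_eqv (h : ∀ σ ∈ H, ∀ i j : Rt f A, σ (a i j) = a (σ • i) (σ • j)) (σ : A ≃ₐ[ℚ] A)
    (c : (A ≃ₐ[ℚ] A) ⧸ H) (i j : Rt f A) : σ (av a c i j) = av a (σ • c) (σ • i) (σ • j) := by
  induction c using QuotientGroup.induction_on with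
  | H g =>
    have e : σ • (g : (A ≃ₐ[ℚ] A) ⧸ H) = ((σ * g : A ≃ₐ[ℚ] A) : (A ≃ₐ[ℚ] A) ⧸ H) := rfl
    rw [e, av_mk h, av_mk h, mul_inv_rev, smul_smul, smul_smul, inv_mul_cancel_right,
      AlgEquiv.mul_apply]

theorem av_ne (hnz : ∀ i j, a i j ≠ 0) (c : (A ≃ₐ[ℚ] A) ⧸ H) (i j : Rt f A) :
    av a c i j ≠ 0 := by
  unfold av
  exact (map_ne_zero_iff _ (c.out).injective).2 (hnz _ _)

variable (a) in
/-- the conjugate `c` belongs to a branch point -/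
def PR (D : ℤ) (q l : ℕ) (V : ValuationSubring A) (c : (A ≃ₐ[ℚ] A) ⧸ H) : Prop :=
  (l : ℤ) ∣ D ∧ ∃ r : Rt f A, (∀ σ : A ≃ₐ[ℚ] A, Dec V σ → σ • c = c → σ • r = r) ∧
    ∃ u : Rt f A → Rt f A → A, ∀ i j, av a c i j = Cf f D r i j * u i j ^ q ∧
      ∀ σ : A ≃ₐ[ℚ] A, Dec V σ → σ • c = c → σ (u i j) = u (σ • i) (σ • j)

variable (a) in
/-- the conjugate `c` is unramified -/
def PU (q : ℕ) (V : ValuationSubring A) (c : (A ≃ₐ[ℚ] A) ⧸ H) : Prop :=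
  ∃ u : Rt f A → Rt f A → A, ∀ i j, av a c i j = u i j ^ q ∧
    ∀ σ : A ≃ₐ[ℚ] A, Ine V σ → σ • c = c → σ (u i j) = u i j

theorem PR.smul (h : ∀ σ ∈ H, ∀ i j : Rt f A, σ (a i j) = a (σ • i) (σ • j)) {D : ℤ} {q l : ℕ}
    {V : ValuationSubring A} {c : (A ≃ₐ[ℚ] A) ⧸ H} (hc : PR a D q l V c) {τ : A ≃ₐ[ℚ] A}
    (hτ : Dec V τ) : PR a D q l V (τ • c) := by
  obtain ⟨hD, r, hr, u, hu⟩ := hc
  have key : ∀ σ : A ≃ₐ[ℚ] A, σ • τ • c = τ • c → (τ⁻¹ * σ * τ) • c = c := by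
    intro σ hσ
    rw [mul_smul, mul_smul, hσ, inv_smul_smul]
  refine ⟨hD, τ • r, ?_, fun i j => τ (u (τ⁻¹ • i) (τ⁻¹ • j)), ?_⟩
  · intro σ hσ hc
    have h1 := hr _ ((hτ.inv.mul hσ).mul hτ) (key σ hc)
    have h2 := congrArg (fun z => τ • z) h1
    simp only [smul_smul] at h2
    rw [← mul_assoc, ← mul_assoc, mul_inv_cancel, one_mul] at h2
    rw [smul_smul]
    exact h2
  · intro i j
    obtain ⟨h1, h2⟩ := hu (τ⁻¹ • i) (τ⁻¹ • j)
    constructor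
    · have h3 := congrArg τ h1
      rw [av_eqv h, map_mul, map_pow, Cf_eqv, smul_inv_smul, smul_inv_smul] at h3
      exact h3
    · intro σ hσ hc
      have h3 := congrArg τ (h2 _ ((hτ.inv.mul hσ).mul hτ) (key σ hc))
      rw [← AlgEquiv.mul_apply, ← mul_assoc, ← mul_assoc, mul_inv_cancel, one_mul,
        AlgEquiv.mul_apply] at h3
      change σ (τ (u (τ⁻¹ • i) (τ⁻¹ • j))) = τ (u (τ⁻¹ • σ • i) (τ⁻¹ • σ • j))
      rw [h3, smul_smul, smul_smul, smul_smul, smul_smul, mul_inv_cancel_right]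

end cosets

section val

variable {A : Type} [Field A] [Algebra ℚ A]

/-- the conjugate of `V` -/
def Vg (V : ValuationSubring A) (g : A ≃ₐ[ℚ] A) : ValuationSubring A := V.comap (g : A →+* A)

theorem mem_Vg {V : ValuationSubring A} {g : A ≃ₐ[ℚ] A} {z : A} : z ∈ Vg V g ↔ g z ∈ V := Iff.rfl

theorem non_Vg {V : ValuationSubring A} {g : A ≃ₐ[ℚ] A} {z : A} :
    z ∈ (Vg V g).nonunits ↔ g z ∈ V.nonunits := by
  rw [Pool.Agent.Y157.PS.nonunits_iff, Pool.Agent.Y157.PS.nonunits_iff, mem_Vg, mem_Vg, map_inv₀,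
    map_eq_zero_iff g g.injective]

theorem At_Vg {V : ValuationSubring A} {g : A ≃ₐ[ℚ] A} {B l : ℕ} (h : At A B l V) :
    At A B l (Vg V g) := by
  refine ⟨h.pr, h.nd, ?_⟩
  rw [non_Vg, map_natCast]
  exact h.ab

theorem Dec_Vg {V : ValuationSubring A} {g σ : A ≃ₐ[ℚ] A} :
    Dec (Vg V g) σ ↔ Dec V (g * σ * g⁻¹) := by
  constructor
  · intro h z
    have h1 := h (g⁻¹ z)
    rw [mem_Vg, mem_Vg] at h1
    rw [← AlgEquiv.mul_apply, ← AlgEquiv.mul_apply, ← AlgEquiv.mul_apply, mul_inv_cancel,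
      AlgEquiv.one_apply] at h1
    exact h1
  · intro h z
    have h1 := h (g z)
    rw [← AlgEquiv.mul_apply, inv_mul_cancel_right, AlgEquiv.mul_apply] at h1
    exact h1

theorem Ine_Vg {V : ValuationSubring A} {g σ : A ≃ₐ[ℚ] A} :
    Ine (Vg V g) σ ↔ Ine V (g * σ * g⁻¹) := by
  constructor
  · rintro ⟨h, h'⟩
    refine ⟨Dec_Vg.1 h, fun z hz => ?_⟩
    have h1 := h' (g⁻¹ z) (by
      rw [mem_Vg, ← AlgEquiv.mul_apply, mul_inv_cancel]
      exact hz)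
    rw [non_Vg, map_sub, ← AlgEquiv.mul_apply, ← AlgEquiv.mul_apply, ← AlgEquiv.mul_apply,
      mul_inv_cancel, AlgEquiv.one_apply] at h1
    exact h1
  · rintro ⟨h, h'⟩
    refine ⟨Dec_Vg.2 h, fun z hz => ?_⟩
    have h1 := h' (g z) hz
    rw [non_Vg, map_sub, ← AlgEquiv.mul_apply]
    rw [← AlgEquiv.mul_apply, inv_mul_cancel_right] at h1
    exact h1

end val

section orb

theorem card_orbit_eq {G₁ G₂ X₁ : Type} [Group G₁] [Group G₂] [MulAction G₁ X₁] (φ : G₂ →* G₁)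
    (hφ : Function.Surjective φ) (K : Subgroup G₂) (x : X₁) (h : ∀ τ, τ ∈ K ↔ φ τ • x = x) :
    Nat.card (MulAction.orbit G₁ x) = K.index := by
  have h1 : K = (MulAction.stabilizer G₁ x).comap φ := by
    ext τ
    rw [h, Subgroup.mem_comap, MulAction.mem_stabilizer_iff]
  rw [h1, Subgroup.index_comap_of_surjective _ hφ, MulAction.index_stabilizer]
  rfl

end orb

end Pool.Agent.Q277.SZ
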