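import Pool.Agent.Q277.SZ.NorA

/-! # Project SZ, job NOR: norms of the Kummer classes -/

set_option autoImplicit false
set_option linter.all false

namespace Pool.Agent.Q277.SZ

open Polynomial NumberField Finset
open Pool.Agent.Y157.PS (Dec Ine IsU)
open Pool.Agent.Q51.SZ

section loc

variable {f : ℤ[X]} {A : Type} [Field A] [Algebra ℚ A] {H : Subgroup (A ≃ₐ[ℚ] A)}
  {a : Rt f A → Rt f A → A}

theorem smul_mk_iff (σ g : A ≃ₐ[ℚ] A) :
    σ • (g : (A ≃ₐ[ℚ] A) ⧸ H) = (g : (A ≃ₐ[ℚ] A) ⧸ H) ↔ g⁻¹ * σ * g ∈ H := by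
  have e : σ • (g : (A ≃ₐ[ℚ] A) ⧸ H) = ((σ * g : A ≃ₐ[ℚ] A) : (A ≃ₐ[ℚ] A) ⧸ H) := rfl
  rw [e, eq_comm, QuotientGroup.eq, mul_assoc]

theorem loc_cases {q B l : ℕ} {D : ℤ} (h : KSys f q A D B H a) {V : ValuationSubring A}
    (hV : At A B l V) (c : (A ≃ₐ[ℚ] A) ⧸ H) :
    (PU a q V c ∧ ((l : ℤ) ∣ D → ∃ g : A ≃ₐ[ℚ] A, (g : (A ≃ₐ[ℚ] A) ⧸ H) = c ∧
      q ∣ H.relIndex (InG (Vg V g)))) ∨ PR a D q l V c := by
  induction c using QuotientGroup.induction_on with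
  | H g =>
    rcases h.loc l (Vg V g) (At_Vg hV) with ⟨⟨u, hu⟩, hI⟩ | ⟨hD, r, hr, u, hu⟩
    · left
      refine ⟨⟨fun i j => g (u (g⁻¹ • i) (g⁻¹ • j)), ?_⟩, fun hD => ⟨g, rfl, hI hD⟩⟩
      intro i j
      obtain ⟨e1, e2⟩ := hu (g⁻¹ • i) (g⁻¹ • j)
      constructor
      · rw [av_mk h.eqv, e1, map_pow]
      · intro σ hσ hc
        have h4 := e2 _ ((smul_mk_iff σ g).1 hc) (Ine_Vg.2 (by
          rwa [← mul_assoc, ← mul_assoc, mul_inv_cancel, one_mul, mul_inv_cancel_right]))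
        have h5 := congrArg g h4
        rwa [← AlgEquiv.mul_apply, ← mul_assoc, ← mul_assoc, mul_inv_cancel, one_mul,
          AlgEquiv.mul_apply] at h5
    · right
      refine ⟨hD, g • r, ?_, fun i j => g (u (g⁻¹ • i) (g⁻¹ • j)), ?_⟩
      · intro σ hσ hc
        have h4 := hr _ ((smul_mk_iff σ g).1 hc) (Dec_Vg.2 (by
          rwa [← mul_assoc, ← mul_assoc, mul_inv_cancel, one_mul, mul_inv_cancel_right]))
        have h5 := congrArg (fun z => g • z) h4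
        simp only [smul_smul] at h5
        rw [← mul_assoc, ← mul_assoc, mul_inv_cancel, one_mul] at h5
        rw [smul_smul]
        exact h5
      · intro i j
        obtain ⟨e1, e2⟩ := hu (g⁻¹ • i) (g⁻¹ • j)
        constructor
        · rw [av_mk h.eqv, e1, map_mul, map_pow, Cf_eqv, smul_inv_smul, smul_inv_smul]
        · intro σ hσ hc
          have h4 := e2 _ ((smul_mk_iff σ g).1 hc) (Dec_Vg.2 (by
            rwa [← mul_assoc, ← mul_assoc, mul_inv_cancel, one_mul, mul_inv_cancel_right]))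
          have h5 := congrArg g h4
          rw [← AlgEquiv.mul_apply, ← mul_assoc, ← mul_assoc, mul_inv_cancel, one_mul,
            AlgEquiv.mul_apply] at h5
          change σ (g (u (g⁻¹ • i) (g⁻¹ • j))) = g (u (g⁻¹ • σ • i) (g⁻¹ • σ • j))
          rw [h5, smul_smul, smul_smul, smul_smul, smul_smul, mul_inv_cancel_right]

/-- the branch point conjugates -/
def XR (D : ℤ) (q l : ℕ) (V : ValuationSubring A)
    (h : ∀ σ ∈ H, ∀ i j : Rt f A, σ (a i j) = a (σ • i) (σ • j)) :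
    SubMulAction (DcG V) ((A ≃ₐ[ℚ] A) ⧸ H) where
  carrier := {c | PR a D q l V c}
  smul_mem' τ _ hc := PR.smul h hc τ.2

/-- the other conjugates -/
def XU (D : ℤ) (q l : ℕ) (V : ValuationSubring A)
    (h : ∀ σ ∈ H, ∀ i j : Rt f A, σ (a i j) = a (σ • i) (σ • j)) :
    SubMulAction (DcG V) ((A ≃ₐ[ℚ] A) ⧸ H) where
  carrier := {c | ¬ PR a D q l V c}
  smul_mem' τ c hc := by
    intro hc'
    apply hc
    have h1 := PR.smul h hc' (τ := (τ⁻¹ : DcG V).1) (τ⁻¹ : DcG V).2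
    have e : ((τ⁻¹ : DcG V).1) • (τ • c) = c := inv_smul_smul τ c
    rwa [e] at h1

theorem mem_XR {D : ℤ} {q l : ℕ} {V : ValuationSubring A}
    {h : ∀ σ ∈ H, ∀ i j : Rt f A, σ (a i j) = a (σ • i) (σ • j)} {c : (A ≃ₐ[ℚ] A) ⧸ H} :
    c ∈ XR D q l V h ↔ PR a D q l V c := Iff.rfl

theorem mem_XU {D : ℤ} {q l : ℕ} {V : ValuationSubring A}
    {h : ∀ σ ∈ H, ∀ i j : Rt f A, σ (a i j) = a (σ • i) (σ • j)} {c : (A ≃ₐ[ℚ] A) ⧸ H} :
    c ∈ XU D q l V h ↔ ¬ PR a D q l V c := Iff.rfl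

/-- the inertia group as a subgroup of the decomposition group -/
def II (V : ValuationSubring A) : Subgroup (DcG V) := (InG V).subgroupOf (DcG V)

theorem mem_II {V : ValuationSubring A} {σ : DcG V} : σ ∈ II V ↔ Ine V σ.1 := Iff.rfl

instance (V : ValuationSubring A) : (II V).Normal := by
  constructor
  intro τ hτ σ
  rw [mem_II] at hτ ⊢
  have h1 := Ine.conj (σ := (σ⁻¹ : DcG V).1) (σ⁻¹ : DcG V).2 hτ
  have e : ((σ * τ * σ⁻¹ : DcG V) : A ≃ₐ[ℚ] A) =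
      ((σ⁻¹ : DcG V) : A ≃ₐ[ℚ] A)⁻¹ * τ * ((σ⁻¹ : DcG V) : A ≃ₐ[ℚ] A) := by
    push_cast
    rw [inv_inv]
  rw [e]
  exact h1

/-- conjugation with `g` -/
def conjI (V : ValuationSubring A) (g : A ≃ₐ[ℚ] A) : InG (Vg V g) →* II V where
  toFun τ := ⟨⟨g * τ.1 * g⁻¹, (Ine_Vg.1 τ.2).1⟩, Ine_Vg.1 τ.2⟩
  map_one' := by
    apply Subtype.ext
    apply Subtype.ext
    change g * 1 * g⁻¹ = 1
    rw [mul_one, mul_inv_cancel]
  map_mul' τ τ' := by
    apply Subtype.ext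
    apply Subtype.ext
    change g * (τ.1 * τ'.1) * g⁻¹ = (g * τ.1 * g⁻¹) * (g * τ'.1 * g⁻¹)
    group

theorem conjI_surj (V : ValuationSubring A) (g : A ≃ₐ[ℚ] A) :
    Function.Surjective (conjI V g) := by
  rintro ⟨⟨σ, hσ⟩, hσ'⟩
  have e : g * (g⁻¹ * σ * g) * g⁻¹ = σ := by group
  refine ⟨⟨g⁻¹ * σ * g, Ine_Vg.2 (by rw [e]; exact hσ')⟩, ?_⟩
  apply Subtype.ext
  apply Subtype.ext
  exact e

theorem orbit_XU {D : ℤ} {q l : ℕ} {V : ValuationSubring A}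
    {h : ∀ σ ∈ H, ∀ i j : Rt f A, σ (a i j) = a (σ • i) (σ • j)} (c : XU D q l V h)
    (g : A ≃ₐ[ℚ] A) (hg : (g : (A ≃ₐ[ℚ] A) ⧸ H) = c.1) :
    Nat.card (MulAction.orbit (II V) c) = H.relIndex (InG (Vg V g)) := by
  refine card_orbit_eq (conjI V g) (conjI_surj V g) (H.subgroupOf (InG (Vg V g))) c ?_
  intro τ
  rw [Subgroup.mem_subgroupOf]
  have e : (conjI V g τ) • c = c ↔ (g * τ.1 * g⁻¹) • c.1 = c.1 := by
    rw [← Subtype.coe_inj]
    rfl
  rw [e, ← hg, smul_mk_iff]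
  have e2 : g⁻¹ * (g * τ.1 * g⁻¹) * g = τ.1 := by group
  rw [e2]

end loc

theorem Ine_dec {A : Type} [Field A] [Algebra ℚ A] {V : ValuationSubring A} {σ : A ≃ₐ[ℚ] A}
    (h : Ine V σ) : Dec V σ := h.1

/-- **Job NOR.** -/
theorem nor (h1 : S_PRR) (h2 : S_PRU) (h3 : S_INV) : S_NOR := by
  intro f q B A _ _ _ hGd hq N _ hqN D hD a hK
  classical
  obtain ⟨H, hH⟩ : ∃ H, H = N.fixingSubgroup := ⟨_, rfl⟩
  rw [← hH] at hK
  have hidx : Module.finrank ℚ N = H.index := by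
    rw [hH]
    exact IntermediateField.finrank_eq_fixingSubgroup_index A N
  have hidx0 : H.index ≠ 0 := by
    rw [← hidx]
    exact (Module.finrank_pos (R := ℚ) (M := N)).ne'
  haveI : H.FiniteIndex := ⟨hidx0⟩
  haveI : Fintype ((A ≃ₐ[ℚ] A) ⧸ H) := Fintype.ofFinite _
  have hcard : Fintype.card ((A ≃ₐ[ℚ] A) ⧸ H) = Module.finrank ℚ N := by
    rw [hidx, Subgroup.index_eq_card, Nat.card_eq_fintype_card]
  obtain ⟨d', hd'⟩ : ∃ d' : ℕ, Module.finrank ℚ N * d' % q = 1 := by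
    obtain ⟨m, -, hm⟩ := Nat.exists_mul_mod_eq_one_of_coprime
      ((Nat.Prime.coprime_iff_not_dvd hq).2 hqN).symm hq.one_lt
    exact ⟨m, hm⟩
  have hdd : (q : ℤ) ∣ d' * Module.finrank ℚ N - 1 := by
    have h4 := Nat.div_add_mod (Module.finrank ℚ N * d') q
    rw [hd'] at h4
    refine ⟨((Module.finrank ℚ N * d' / q : ℕ) : ℤ), ?_⟩
    have h5 : ((Module.finrank ℚ N * d' : ℕ) : ℤ) =
        ((q * (Module.finrank ℚ N * d' / q) + 1 : ℕ) : ℤ) := by rw [h4]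
    push_cast at h5 ⊢
    linarith
  have hav : ∀ (c : (A ≃ₐ[ℚ] A) ⧸ H) (i j : Rt f A), av a c i j ≠ 0 := av_ne hK.nz
  have hae := hK.eqv
  refine ⟨fun i j => (∏ c : (A ≃ₐ[ℚ] A) ⧸ H, av a c i j) ^ d', ?_, ?_, ?_, ?_⟩
  · intro i j
    exact pow_ne_zero _ (Finset.prod_ne_zero_iff.2 fun c _ => hav c i j)
  · intro σ i j
    rw [map_pow, map_prod]
    congr 1
    rw [← Equiv.prod_comp (MulAction.toPerm σ : Equiv.Perm ((A ≃ₐ[ℚ] A) ⧸ H))
      (fun c => av a c (σ • i) (σ • j))]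
    refine Finset.prod_congr rfl fun c _ => ?_
    exact av_eqv hae σ c i j
  · intro l V hV hl i j
    obtain ⟨i1, i2, i3, i4⟩ := h3 f q B A hGd hq l V hV
    have hU : ∀ c : (A ≃ₐ[ℚ] A) ⧸ H, PU a q V c := by
      intro c
      rcases loc_cases hK hV c with h | h
      · exact h.1
      · exact absurd h.1 hl
    have h5 := h2 (DcG V) ((A ≃ₐ[ℚ] A) ⧸ H) (Rt f A) A (II V) q (av a) hq.pos
      (fun τ hτ i => (i1 τ.1 hτ).1 i) (fun τ hτ ζ hζ => (i1 τ.1 hτ).2 ζ hζ) hav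
      (fun σ c i j => av_eqv hae σ.1 c i j) (fun c => by
        obtain ⟨u, hu⟩ := hU c
        exact ⟨u, fun i j => ⟨(hu i j).1, fun τ hτ hc => (hu i j).2 τ.1 hτ hc⟩⟩)
    obtain ⟨U, hUU⟩ := h5.1
    obtain ⟨e1, e2⟩ := hUU i j
    have hU0 : U i j ≠ 0 := by
      intro h0
      rw [h0, zero_pow hq.ne_zero] at e1
      exact Finset.prod_ne_zero_iff.2 (fun c _ => hav c i j) e1
    obtain ⟨k, hk⟩ := i2 (U i j) hU0 (fun σ hσ => e2 ⟨σ, hσ.1⟩ hσ)
    refine ⟨k * d', ?_⟩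
    haveI : CharZero A := algebraRat.charZero A
    have hl0 : (l : A) ≠ 0 := Nat.cast_ne_zero.2 hV.pr.ne_zero
    have e3 : (∏ c : (A ≃ₐ[ℚ] A) ⧸ H, av a c i j) ^ d' / (l : A) ^ (0 + (q : ℤ) * (k * d')) =
        ((U i j / (l : A) ^ k) ^ q) ^ d' := by
      rw [e1, div_pow, div_pow, zero_add, zpow_mul, zpow_mul, zpow_natCast]
      rw [← zpow_natCast ((l : A) ^ k), ← zpow_mul, ← zpow_mul, mul_comm k (q : ℤ)]
    rw [e3]
    have hpow : ∀ (z : A) (n : ℕ), IsU V z → IsU V (z ^ n) := by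
      intro z n hz
      induction n with
      | zero => rw [pow_zero]; exact Pool.Agent.Y157.PS.isU_one
      | succ n ih => rw [pow_succ]; exact ih.mul hz
    exact hpow _ _ (hpow _ _ hk)
  · intro l V hV hl
    obtain ⟨i1, i2, i3, i4⟩ := h3 f q B A hGd hq l V hV
    have hr := h1 (DcG V) (XR D q l V hae) (Rt f A) A q (Cf f D) (fun c => av a c.1)
      (fun σ r i j => Cf_eqv D σ.1 r i j) (fun σ c i j => av_eqv hae σ.1 c.1 i j) (fun c => by
        obtain ⟨-, r, hr, u, hu⟩ := c.2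
        refine ⟨r, fun σ hσ => hr σ.1 σ.2 (congrArg Subtype.val hσ), u, fun i j =>
          ⟨(hu i j).1, fun σ hσ => (hu i j).2 σ.1 σ.2 (congrArg Subtype.val hσ)⟩⟩)
    have hu := (h2 (DcG V) (XU D q l V hae) (Rt f A) A (II V) q (fun c => av a c.1) hq.pos
      (fun τ hτ i => (i1 τ.1 hτ).1 i) (fun τ hτ ζ hζ => (i1 τ.1 hτ).2 ζ hζ)
      (fun c i j => hav c.1 i j) (fun σ c i j => av_eqv hae σ.1 c.1 i j) (fun c => by
        rcases loc_cases hK hV c.1 with h | h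
        · obtain ⟨u, hu⟩ := h.1
          exact ⟨u, fun i j => ⟨(hu i j).1, fun τ hτ hc => (hu i j).2 τ.1 hτ
            (congrArg Subtype.val hc)⟩⟩
        · exact absurd h c.2)).2 (fun c => by
        rcases loc_cases hK hV c.1 with h | h
        · obtain ⟨g, hg, hgq⟩ := h.2 hl
          rw [orbit_XU c g hg]
          exact hgq
        · exact absurd h c.2)
    obtain ⟨M, U, hM1, hM2, hU1, hU2⟩ := hr
    obtain ⟨hcU, U', hU1', hU2'⟩ := hu
    have hprod : ∀ i j, ∏ c : (A ≃ₐ[ℚ] A) ⧸ H, av a c i j = (∏ r, Cf f D r i j ^ M r) * (U i j * U' i j) ^ q := by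
      intro i j
      rw [mul_pow, ← mul_assoc, ← hU2, ← hU2']
      have h6 := Fintype.prod_subtype_mul_prod_subtype (fun c : (A ≃ₐ[ℚ] A) ⧸ H => PR a D q l V c)
        (fun c => av a c i j)
      rw [← h6]
      congr 1
      exact @Fintype.prod_equiv _ _ _ (_) (_) _ (Equiv.refl _) _ _ (fun _ => rfl)
    have hcd : Fintype.card (XR D q l V hae) + Fintype.card (XU D q l V hae) =
        Module.finrank ℚ N := by
      have h6 := Fintype.sum_subtype_add_sum_subtype (fun c : (A ≃ₐ[ℚ] A) ⧸ H => PR a D q l V c)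
        (fun _ => (1 : ℕ))
      simp only [Finset.sum_const, Finset.card_univ, smul_eq_mul, mul_one] at h6
      rw [← hcard, ← h6]
      congr 1
      exact Fintype.card_congr (Equiv.refl _)
    refine ⟨fun r => d' * M r, fun i j => (U i j * U' i j) ^ d', ?_, ?_, ?_, ?_, ?_⟩
    · intro σ hσ i
      have := hM1 ⟨σ, hσ⟩ i
      change (d' : ℤ) * (M (σ • i) : ℤ) = _
      rw [show M (σ • i) = M i from this]
    · rw [← Finset.mul_sum]
      have h6 : ((∑ r, M r : ℕ) : ℤ) = ((Fintype.card (XR D q l V hae) : ℕ) : ℤ) := by rw [hM2]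
      push_cast at h6
      rw [h6]
      obtain ⟨e, he⟩ := hcU
      obtain ⟨e', he'⟩ := hdd
      refine ⟨e' - d' * e, ?_⟩
      have h7 : ((Fintype.card (XR D q l V hae) : ℕ) : ℤ) + ((q * e : ℕ) : ℤ) =
          (Module.finrank ℚ N : ℕ) := by
        rw [← he]
        exact_mod_cast hcd
      push_cast at h7
      rw [← h7] at he'
      linear_combination he'
    · intro i j h0
      have h6 : U i j * U' i j ≠ 0 := by
        intro h7
        have h8 := hprod i j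
        rw [h7, zero_pow hq.ne_zero, mul_zero] at h8
        exact Finset.prod_ne_zero_iff.2 (fun c _ => hav c i j) h8
      exact pow_ne_zero _ h6 h0
    · intro σ hσ i j
      rw [map_pow, map_mul]
      congr 2
      · exact hU1 ⟨σ, hσ⟩ i j
      · exact hU1' ⟨σ, hσ⟩ i j
    · intro i j
      rw [hprod, mul_pow, ← Finset.prod_pow, ← pow_mul, ← pow_mul, mul_comm q d']
      congr 1
      refine Finset.prod_congr rfl fun r _ => ?_
      change (Cf f D r i j ^ M r) ^ d' = Cf f D r i j ^ ((d' : ℤ) * (M r : ℤ))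
      rw [mul_comm (d' : ℤ), zpow_mul, zpow_natCast, zpow_natCast]

end Pool.Agent.Q277.SZ
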